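import Pool.Agent.H14.Predist

set_option autoImplicit false

namespace Pool.Agent.Results.MP_87d29b_co.Prism

open Polynomial Pool.Agent.H14.Predist

def G : SimpleGraph (Fin 6) where
  Adj a b := a - b = 2 ∨ a - b = 3 ∨ a - b = 4
  symm := ⟨by decide⟩
  loopless := ⟨by decide⟩

instance : DecidableRel G.Adj := fun a b => by unfold G; infer_instance

def P : Matrix (Fin 6) (Fin 6) ℤ :=
  ![![1, -1, -1, -1, -1, 1], ![1, 1, 1, 0, -1, 0], ![1, -1, 0, 1, 0, -1], ![1, 1, -1, -1, 1, -1], ![1, -1, 1, 0, 1, 0], ![1, 1, 0, 1, 0, 1]]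
def Q : Matrix (Fin 6) (Fin 6) ℤ :=
  ![![1, 1, 1, 1, 1, 1], ![-1, 1, -1, 1, -1, 1], ![-1, 2, -1, -1, 2, -1], ![-1, -1, 2, -1, -1, 2], ![-1, -2, -1, 1, 2, 1], ![1, -1, -2, -1, 1, 2]]
def ev : Fin 6 → ℤ := ![3, 1, 0, 0, -2, -2]
def lay (x y : Fin 6) : ℕ := if x = y then 0 else if G.Adj x y then 1 else 2

noncomputable def p : ℕ → ℝ[X]
  | 0 => C 1
  | 1 => X
  | 2 => C (6 / 13) * X ^ 2 + C (-4 / 13) * X + C (-18 / 13)
  | _ => C (1 / 5) * X ^ 3 + C (-17 / 65) * X ^ 2 + C (-71 / 65) * X + C (5 / 13)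

theorem facts :
    (∀ f g : ℝ[X], Matrix.trace (aeval (G.adjMatrix ℝ) f * aeval (G.adjMatrix ℝ) g) =
      ∑ i, f.eval (ev i : ℝ) * g.eval (ev i : ℝ)) ∧
      (G.adjMatrix ℝ).charpoly.roots.toFinset = Finset.univ.image (fun i => (ev i : ℝ)) :=
  diag_facts _ (G.adjMatrix ℤ) (by ext i j; simp [SimpleGraph.adjMatrix_apply]) ev P Q 6
    (by norm_num) (by decide +kernel) (by decide +kernel) (by decide +kernel)

theorem pre : IsPredistance (G.adjMatrix ℝ) 3 3 p := by
  refine ⟨?_, ?_, ?_⟩
  · intro i hi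
    interval_cases i
    · simp [p]
    · simp [p]
    · exact degree_quadratic (by norm_num)
    · exact degree_cubic (by norm_num)
  · intro i hi j hj hij
    rw [facts.1]
    interval_cases i <;> interval_cases j <;> first
      | exact absurd rfl hij
      | (simp [p, ev, Fin.sum_univ_succ]; norm_num)
  · intro i hi
    rw [facts.1]
    interval_cases i <;> (simp [p, ev, Fin.sum_univ_succ]; try norm_num)

theorem shift (l : ℕ) : ∀ a b : Fin 6,
    ((G.adjMatrix ℕ) ^ l) (a + 1) (b + 1) = ((G.adjMatrix ℕ) ^ l) a b := by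
  induction l with
  | zero => decide
  | succ l ih =>
    intro a b
    rw [pow_succ, Matrix.mul_apply, Matrix.mul_apply, ← Equiv.sum_comp (Equiv.addRight (1 : Fin 6))]
    refine Finset.sum_congr rfl fun c _ => ?_
    have : ∀ c b : Fin 6, G.adjMatrix ℕ (c + 1) (b + 1) = G.adjMatrix ℕ c b := by decide
    simp only [Equiv.coe_addRight]
    rw [ih, this]

theorem result :
    ¬ ∀ (n : ℕ) (G : SimpleGraph (Fin n)) [DecidableRel G.Adj] (k d : ℕ) (p : ℕ → ℝ[X]),
      G.Connected →
      (∀ (l : ℕ) (x y : Fin n), Fintype.card {w : G.Walk x x | w.length = l} =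
        Fintype.card {w : G.Walk y y | w.length = l}) →
      G.IsRegularOfDegree k →
      (G.adjMatrix ℝ).charpoly.roots.toFinset.card = d + 1 →
      IsPredistance (G.adjMatrix ℝ) (k : ℝ) d p →
      G.diam < d →
      ∀ x : Fin n, ((Finset.univ.filter (fun y => G.dist x y = G.diam)).card : ℝ) ≤ (p d).eval (k : ℝ) := by
  intro h
  obtain ⟨hc, hd, hl⟩ := diam_eq_of_table G lay (by decide) (by decide) (by decide) 2
    (by decide) (by decide)
  have hw : ∀ (l : ℕ) (x y : Fin 6), Fintype.card {w : G.Walk x x | w.length = l} =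
      Fintype.card {w : G.Walk y y | w.length = l} := by
    intro l
    have e : ∀ x : Fin 6, (Fintype.card {w : G.Walk x x | w.length = l}) =
        ((G.adjMatrix ℕ) ^ l) x x := fun x => by
      rw [SimpleGraph.adjMatrix_pow_apply_eq_card_walk]; simp
    have s := shift l
    have s0 := s 0 0
    have s1 := s 1 1
    have s2 := s 2 2
    have s3 := s 3 3
    have s4 := s 4 4
    have z : ∀ x : Fin 6, ((G.adjMatrix ℕ) ^ l) x x = ((G.adjMatrix ℕ) ^ l) 0 0 := by
      intro x
      fin_cases x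
      · rfl
      · exact s0
      · exact s1.trans s0
      · exact s2.trans (s1.trans s0)
      · exact s3.trans (s2.trans (s1.trans s0))
      · exact s4.trans (s3.trans (s2.trans (s1.trans s0)))
    intro x y
    rw [e, e, z x, z y]
  have hcard : (G.adjMatrix ℝ).charpoly.roots.toFinset.card = 3 + 1 := by
    rw [facts.2]
    have : Finset.univ.image (fun i => (ev i : ℝ)) =
        (Finset.univ.image ev).image (fun z : ℤ => (z : ℝ)) := by
      rw [Finset.image_image]; rfl
    rw [this, Finset.card_image_of_injective _ Int.cast_injective]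
    decide
  have := h 6 G 3 3 p hc hw (by intro v; revert v; decide) hcard (by exact_mod_cast pre)
    (by omega) 0
  simp only [hl, hd] at this
  have e : (Finset.univ.filter (fun y => lay 0 y = 2)).card = 2 := by decide
  rw [e] at this
  simp [p] at this
  norm_num at this

end Pool.Agent.Results.MP_87d29b_co.Prism
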