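import Pool.Agent.H14.Predist

set_option autoImplicit false

namespace Pool.Agent.Results.MP_87d29b_co.TailSum

open Polynomial Pool.Agent.H14.Predist

def edges : List (Fin 10 × Fin 10) :=
  [(2, 0), (3, 0), (3, 1), (5, 1), (5, 2), (5, 4), (6, 2), (7, 4), (7, 6), (8, 0), (8, 4), (8, 7), (9, 1), (9, 3), (9, 6)]

def G : SimpleGraph (Fin 10) where
  Adj a b := (a, b) ∈ edges ∨ (b, a) ∈ edges
  symm := ⟨fun _ _ h => h.symm⟩
  loopless := ⟨by decide⟩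

instance : DecidableRel G.Adj := fun a b => by unfold G; infer_instance

def P : Matrix (Fin 10) (Fin 10) ℤ :=
  ![![1, 0, 1, 2, -2, 0, 0, 1, -1, 1], ![1, 1, -1, -1, 1, 1, -1, -1, -1, -2], ![1, 0, 1, 0, -2, 0, 0, -2, 0, -2], ![1, 1, 0, 1, 0, -1, 0, 0, 1, 0], ![1, -1, -1, -1, 1, -1, 1, -1, -1, -2], ![1, 0, -1, -2, 0, 0, 0, 2, 1, 3], ![1, 0, 1, 0, 0, 0, 0, 1, 0, 0], ![1, -1, 0, 0, 1, 0, -1, 0, 0, 1], ![1, -1, 0, 1, 0, 1, 0, 0, 1, 0], ![1, 1, 0, 0, 1, 0, 1, 0, 0, 1]]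
def Q : Matrix (Fin 10) (Fin 10) ℤ :=
  ![![3, 3, 3, 3, 3, 3, 3, 3, 3, 3], ![0, 5, 0, 5, -5, 0, 0, -5, -5, 5], ![-5, -5, 5, -5, -5, -5, 15, 5, -5, 5], ![5, 0, -5, 5, 0, -5, -5, 0, 5, 0], ![-5, 0, -5, 0, 0, -5, 5, 5, 0, 5], ![0, 5, 0, -10, -5, 0, 0, -5, 10, 5], ![0, -5, 0, -5, 5, 0, 0, -10, 5, 10], ![2, 2, -8, 2, 2, 2, 12, -8, 2, -8], ![-8, -3, 2, 7, -3, 2, 2, -3, 7, -3], ![2, -3, 2, -3, -3, 2, -8, 7, -3, 7]]
def ev : Fin 10 → ℤ := ![3, 2, 1, 1, 1, -1, -1, -2, -2, -2]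
def lay : Fin 10 → Fin 10 → ℕ :=
  ![![0, 2, 1, 1, 2, 2, 2, 2, 1, 2], ![2, 0, 2, 1, 2, 1, 2, 3, 3, 1], ![1, 2, 0, 2, 2, 1, 1, 2, 2, 2],
    ![1, 1, 2, 0, 3, 2, 2, 3, 2, 1], ![2, 2, 2, 3, 0, 1, 2, 1, 1, 3], ![2, 1, 1, 2, 1, 0, 2, 2, 2, 2],
    ![2, 2, 1, 2, 2, 2, 0, 1, 2, 1], ![2, 3, 2, 3, 1, 2, 1, 0, 1, 2], ![1, 3, 2, 2, 1, 2, 2, 1, 0, 3],
    ![2, 1, 2, 1, 3, 2, 1, 2, 3, 0]]

noncomputable def p : ℕ → ℝ[X]
  | 0 => C 1
  | 1 => X
  | 2 => C (20 / 23) * X ^ 2 + C (-8 / 23) * X + C (-60 / 23)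
  | 3 => C (335 / 937) * X ^ 3 + C (-11725 / 21551) * X ^ 2 + C (-33835 / 21551) * X + C (25929 / 21551)
  | _ => C (1 / 4) * X ^ 4 +
      (C (-335 / 937) * X ^ 3 + C (-5905 / 3748) * X ^ 2 + C (860 / 937) * X + C (1317 / 937))

theorem facts :
    (∀ f g : ℝ[X], Matrix.trace (aeval (G.adjMatrix ℝ) f * aeval (G.adjMatrix ℝ) g) =
      ∑ i, f.eval (ev i : ℝ) * g.eval (ev i : ℝ)) ∧
      (G.adjMatrix ℝ).charpoly.roots.toFinset = Finset.univ.image (fun i => (ev i : ℝ)) :=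
  diag_facts _ (G.adjMatrix ℤ) (by ext i j; simp [SimpleGraph.adjMatrix_apply]) ev P Q 30
    (by norm_num) (by decide +kernel) (by decide +kernel) (by decide +kernel)

theorem pre : IsPredistance (G.adjMatrix ℝ) 3 4 p := by
  refine ⟨?_, ?_, ?_⟩
  · intro i hi
    interval_cases i
    · simp [p]
    · simp [p]
    · exact degree_quadratic (by norm_num)
    · exact degree_cubic (by norm_num)
    · have h4 : (C (1 / 4 : ℝ) * X ^ 4).degree = 4 := degree_C_mul_X_pow 4 (by norm_num)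
      show (C (1 / 4 : ℝ) * X ^ 4 + _).degree = _
      rw [degree_add_eq_left_of_degree_lt, h4]
      · rfl
      · rw [h4, degree_cubic (by norm_num)]
        norm_num
  · intro i hi j hj hij
    rw [facts.1]
    interval_cases i <;> interval_cases j <;> first
      | exact absurd rfl hij
      | (simp [p, ev, Fin.sum_univ_succ]; norm_num)
  · intro i hi
    rw [facts.1]
    interval_cases i <;> (simp [p, ev, Fin.sum_univ_succ]; try norm_num)

theorem result :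
    ¬ ∀ (n : ℕ) (G : SimpleGraph (Fin n)) [DecidableRel G.Adj] (k d : ℕ) (p : ℕ → ℝ[X]),
      G.Connected →
      G.IsRegularOfDegree k →
      (G.adjMatrix ℝ).charpoly.roots.toFinset.card = d + 1 →
      IsPredistance (G.adjMatrix ℝ) (k : ℝ) d p →
      G.diam < d →
      ∀ x : Fin n, ((Finset.univ.filter (fun y => G.dist x y = G.diam)).card : ℝ) ≤
        ∑ i ∈ Finset.Icc G.diam d, (p i).eval (k : ℝ) := by
  intro h
  obtain ⟨hc, hd, hl⟩ := diam_eq_of_table G lay (by decide) (by decide +kernel) (by decide +kernel) 3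
    (by decide) (by decide)
  have hcard : (G.adjMatrix ℝ).charpoly.roots.toFinset.card = 4 + 1 := by
    rw [facts.2]
    have : Finset.univ.image (fun i => (ev i : ℝ)) =
        (Finset.univ.image ev).image (fun z : ℤ => (z : ℝ)) := by
      rw [Finset.image_image]; rfl
    rw [this, Finset.card_image_of_injective _ Int.cast_injective]
    decide
  have := h 10 G 3 4 p hc (by intro v; revert v; decide) hcard (by exact_mod_cast pre)
    (by omega) 1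
  simp only [hl, hd] at this
  have e : (Finset.univ.filter (fun y => lay 1 y = 3)).card = 2 := by decide
  have e2 : Finset.Icc 3 4 = {3, 4} := by decide
  rw [e, e2, Finset.sum_pair (by norm_num)] at this
  simp [p] at this
  norm_num at this

end Pool.Agent.Results.MP_87d29b_co.TailSum
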